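import Pool.Agent.E8helper96.CTM.Gen
import Pool.Agent.E8helper20.CTM.StmA
import Pool.Agent.E8helper85.CT3.Kloc3

/-!
# Project CTM, SELM1: the order of the Selmer group of `√-3` for `y² + c D y = x³`,
`c = 3 ^ k ω ^ b`
-/

set_option autoImplicit false
set_option linter.unusedSectionVars false
set_option linter.unusedVariables false

open scoped Classical

namespace Pool.Agent.E8helper96.CTM

open Pool.Agent.Y692.QS (Ei w nr isUnit_iff)
open Pool.Agent.Y715.T.Gi Pool.Agent.Y715.T.Nr Pool.Agent.Y715.T.Df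
open Pool.Agent.Y715.T.Rec (cs)
open Pool.Agent.Y715.T.RecG
open Pool.Agent.Y715.T.RecC (unit_form)
open Pool.Agent.Y715.T.Sel (iota_ev norm_three_one exists_emb3 kc_congr)
open Pool.Agent.Y703.CT
open Pool.Agent.Y48.CT.SEL (not_lam not_assoc_lam p0 pr0 esq prod_form support)
open Pool.Agent.E8helper23.CT3.SEL (cs_three)
open Pool.Agent.Y363.CT.SELC (not_lt_prod)
open Pool.Agent.XL6 (SelH)
open Pool.Agent.E8helper85.CT3 (three_mul three_pow)
open Pool.Agent.E8helper20.CTM (c2 c3 lf S_SUPM S_RAMM S_LOCM1 S_CUBM1 S_SELM1 nK1)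

variable {J : Type} [Fintype J] {π : J → Ei} {e : J → ZMod 3}
variable {i₀ : QB} {hi : i₀ ^ 2 + i₀ + 1 = 0}

/-! ### the linear forms of the digits -/

lemma lf_mul (hSUP : S_SUPM) (a b : ZMod 3) {α β : Ei} (hα : (3 : Ei) ∣ α - 1)
    (hβ : (3 : Ei) ∣ β - 1) : lf a b (α * β) = lf a b α + lf a b β := by
  obtain ⟨h1, h2⟩ := hSUP.2 α β hα hβ
  unfold lf
  rw [h1, h2]
  ring

lemma lf_one (hSUP : S_SUPM) (a b : ZMod 3) : lf a b 1 = 0 := by
  have h1 := lf_mul hSUP a b (α := 1) (β := 1) (by simp) (by simp)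
  rw [mul_one] at h1
  linear_combination -h1

lemma lf_pow (hSUP : S_SUPM) (a b : ZMod 3) {α : Ei} (hα : (3 : Ei) ∣ α - 1) (n : ℕ) :
    lf a b (α ^ n) = n * lf a b α := by
  induction n with
  | zero => rw [pow_zero, lf_one hSUP, Nat.cast_zero, zero_mul]
  | succ n ih =>
    rw [pow_succ, lf_mul hSUP a b (three_pow hα n) hα, ih]
    push_cast
    ring

lemma lf_prod (hSUP : S_SUPM) (a b : ZMod 3) {K : Type} (S : Finset K) (f : K → Ei)
    (hf : ∀ k ∈ S, (3 : Ei) ∣ f k - 1) :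
    (3 : Ei) ∣ ∏ k ∈ S, f k - 1 ∧ lf a b (∏ k ∈ S, f k) = ∑ k ∈ S, lf a b (f k) := by
  induction S using Finset.induction_on with
  | empty => simp [lf_one hSUP]
  | insert i S his ih =>
    obtain ⟨h1, h2⟩ := ih fun k hk => hf k (Finset.mem_insert_of_mem hk)
    have h3 := hf i (Finset.mem_insert_self i S)
    rw [Finset.prod_insert his, Finset.sum_insert his]
    exact ⟨three_mul h3 h1, by rw [lf_mul hSUP a b h3 h1, h2]⟩

lemma lf_gen (hSUP : S_SUPM) (a b : ZMod 3) (hD : Dt π e) (v : J → ZMod 3) :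
    lf a b (∏ j, π j ^ (e j * v j).val) = ∑ j, e j * (lf a b (π j) * v j) := by
  rw [(lf_prod hSUP a b Finset.univ (fun j => π j ^ (e j * v j).val)
    fun j _ => three_pow (hD.pq j).three _).2]
  refine Finset.sum_congr rfl fun j _ => ?_
  rw [lf_pow hSUP a b (hD.pq j).three, ZMod.natCast_zmod_val]
  ring

/-- the sum of the equations -/
lemma sum_eqs (hREC : S_REC) (hD : Dt π e) (v : J → ZMod 3) :
    ∑ j, e j * ∑ i, e i * cs (π j) (π i) * (v i - v j) = 0 := by
  have h2 : ∀ j, e j * ∑ i, e i * cs (π j) (π i) * (v i - v j) =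
      ∑ i, e j * (e i * cs (π j) (π i) * (v i - v j)) := fun j => Finset.mul_sum _ _ _
  rw [Finset.sum_congr rfl fun j _ => h2 j]
  have h3 : ∑ j, ∑ i, e j * (e i * cs (π j) (π i) * (v i - v j)) =
      -∑ j, ∑ i, e j * (e i * cs (π j) (π i) * (v i - v j)) := by
    conv_lhs => rw [Finset.sum_comm]
    rw [← Finset.sum_neg_distrib]
    refine Finset.sum_congr rfl fun i _ => ?_
    rw [← Finset.sum_neg_distrib]
    refine Finset.sum_congr rfl fun j _ => ?_
    by_cases hij : i = j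
    · rw [hij, sub_self, mul_zero, mul_zero, neg_zero]
    · rw [hREC (π i) (π j) (hD.pq i) (hD.pq j) (hD.nd i j hij)]
      ring
  exact (by decide : ∀ x : ZMod 3, x = -x → x = 0) _ h3

lemma lf_ker (hREC : S_REC) (hSUP : S_SUPM) (hD : Dt π e) (a b : ZMod 3) {v : J → ZMod 3}
    (hv : ∀ j, ∑ i, e i * cs (π j) (π i) * (v i - v j) = lf a b (π j) * v j) :
    lf a b (∏ j, π j ^ (e j * v j).val) = 0 := by
  rw [lf_gen hSUP a b hD, ← sum_eqs hREC hD v]
  exact Finset.sum_congr rfl fun j _ => by rw [hv j]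

lemma cs_c (hSUP : S_SUPM) {ρ : Ei} (h : Pq ρ) (k b : ℕ) :
    cs ρ (3 ^ k * w ^ b) = lf b k ρ := by
  have h1 : ¬ ρ ∣ 3 := by
    intro h2
    have h3 : (3 : Ei) = -(lam ^ 2) := by rw [lam_sq, neg_neg]
    rw [h3, dvd_neg] at h2
    exact not_lam h (h.prime.dvd_of_dvd_pow h2)
  have h2 : ¬ ρ ∣ w := fun h3 => h.prime.not_isUnit (isUnit_of_dvd_unit h3 w_unit)
  obtain ⟨s1, -, s3⟩ := hSUP.1 ρ h
  rw [cs_mul h.prime h.norm (fun h3 => h1 (h.prime.dvd_of_dvd_pow h3))
    (fun h3 => h2 (h.prime.dvd_of_dvd_pow h3)), cs_pow h.prime h.norm h1,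
    cs_pow h.prime h.norm h2, s1, s3]
  unfold lf
  ring

/-- the curve `3 ^ k w ^ b D` -/
lemma cur1 (k b : ℕ) (hk : k ≤ 1) (hb : b ≤ 2) :
    3 ^ k * w ^ b * pD π e = (-1) ^ k * G π (vec (b : ZMod 3) (2 * (k : ZMod 3)) e) := by
  have hb' : ((b : ZMod 3)).val = b := ZMod.val_cast_of_lt (by omega)
  rw [G_vec, hb']
  unfold pD
  interval_cases k
  · have h1 : (2 * ((0 : ℕ) : ZMod 3)).val = 0 := by decide
    rw [h1]
    ring
  · have h1 : (2 * ((1 : ℕ) : ZMod 3)).val = 2 := by decide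
    rw [h1, lam_sq]
    ring

lemma cs_lam_two (ρ : Ei) (h : Pq ρ) : 2 * cs ρ lam = cs ρ 3 := by
  rw [cs_three h]
  have h6 : (3 : ZMod 3) = 0 := by decide
  linear_combination cs ρ 3 * h6

/-- **SELM1.** -/
theorem t_SELM1 : S_SELM1 := by
  intro hREC hSUP hRAMM hLOC hCUB1 hFF hCUB hPT k b hk hb hkb J _ _ π e hD i₀ hi u a hTw
  have hc : (3 ^ k * w ^ b : Ei) ∣ 3 ^ 1 :=
    (IsUnit.mul_right_dvd (w_unit.pow b)).2 (pow_dvd_pow 3 hk)
  obtain ⟨hr1, hr2, hr3⟩ := hRAMM (3 ^ k * w ^ b) 1 1 hc (one_dvd _) J π e hD i₀ hi u a hTw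
  have hcur := cur1 (π := π) (e := e) k b hk hb
  have hb2 : Kc hi (G π (vec (b : ZMod 3) (2 * (k : ZMod 3)) e)) (fun σ => -a σ) :=
    kc_cur hD (neg_one_pow_eq_or _ k) hcur hTw
  have h30 : (3 : Ei) ≠ 0 := by decide
  have hc0 : (3 ^ k * w ^ b : Ei) ≠ 0 := mul_ne_zero (pow_ne_zero _ h30) (pow_ne_zero _ w0)
  have hne : (3 ^ k * w ^ b * pD π e : Ei) ≠ 0 := mul_ne_zero hc0 (pr0 hD _)
  have hbk : (b : ZMod 3) ≠ 0 ∨ (k : ZMod 3) ≠ 0 := by
    rcases hkb with h | h
    · right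
      interval_cases k
      · exact absurd rfl h
      · decide
    · left
      interval_cases b
      · exact absurd rfl h
      · decide
      · decide
  refine card_of hD hb2 hne hTw
    (fun v : J → ZMod 3 => ∀ j, ∑ i, e i * cs (π j) (π i) * (v i - v j) = lf b k (π j) * v j)
    (fun v => vec 0 0 (fun i => e i * v i)) ?_ ?_ ?_
  · intro g g' x y _ _ hxy
    have h1 : g * (b : ZMod 3) + 0 = g' * (b : ZMod 3) + 0 := hxy none
    have h2 : g * (2 * (k : ZMod 3)) + 0 = g' * (2 * (k : ZMod 3)) + 0 := hxy (some none)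
    have hg : g = g' := by
      rcases hbk with h | h
      · rw [add_zero, add_zero] at h1
        exact mul_right_cancel₀ h h1
      · rw [add_zero, add_zero] at h2
        exact mul_right_cancel₀ (mul_ne_zero (by decide) h) h2
    subst hg
    refine ⟨rfl, funext fun j => ?_⟩
    have h3 : g * e j + e j * x j = g * e j + e j * y j := hxy (some (some j))
    have h4 := esq hD j
    linear_combination e j * h3 + (y j - x j) * h4
  · intro v hv h hk1 p _ ι
    have hB0 : (∏ j, π j ^ (e j * v j).val) ≠ 0 := pr0 hD _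
    have e1 : G π (vec 0 0 (fun i => e i * v i)) = ∏ j, π j ^ (e j * v j).val := by
      rw [G_vec, ZMod.val_zero, pow_zero, pow_zero, one_mul, one_mul]
    rw [e1] at hk1
    by_cases hp3 : p = 3
    · subst hp3
      exact hPT i₀ hi _ _ hB0 hne u a hTw _ hk1 3 ι
        (hCUB1 k b hk hb hkb inferInstance (ι i₀) (iota_sq' hi ι) _ _ (prod_form hD _)
          (lf_ker hREC hSUP hD b k hv) (prod_form hD _))
    · by_cases hj : ∃ j, ‖ι (ev i₀ hi (π j))‖ < 1
      · obtain ⟨j, hj⟩ := hj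
        refine hr3 v h (by rw [one_mul]; exact hk1) j ?_ p ι hj
        rw [cs_one (hD.pq j).prime (hD.pq j).norm, zero_add, hv j, cs_c hSUP (hD.pq j)]
      · have hj' : ∀ j, ¬ ‖ev (ι i₀) (iota_sq' hi ι) (π j)‖ < 1 := by
          intro j h1
          apply hj
          refine ⟨j, ?_⟩
          rw [iota_ev]
          exact h1
        have h3 : ¬ ‖ev (ι i₀) (iota_sq' hi ι) (3 ^ k * w ^ b * pD π e)‖ < 1 := by
          have h4 : ¬ ‖ev (ι i₀) (iota_sq' hi ι) (pD π e)‖ < 1 := not_lt_prod _ hj' _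
          have h5 : ‖ev (ι i₀) (iota_sq' hi ι) w‖ = 1 := by
            have h6 : ‖ev (ι i₀) (iota_sq' hi ι) w‖ ^ 3 = 1 := by
              rw [← norm_pow, ← map_pow, (by decide : (w : Ei) ^ 3 = 1), map_one, norm_one]
            exact (pow_eq_one_iff_of_nonneg (norm_nonneg _) three_ne_zero).1 h6
          rw [map_mul, norm_mul, map_mul, norm_mul, map_pow, norm_pow, map_ofNat,
            norm_three_one hp3, one_pow, map_pow, norm_pow, h5, one_pow, one_mul, one_mul]
          exact h4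
        exact hPT i₀ hi _ _ hB0 hne u a hTw _ hk1 p ι
          (hCUB hFF p hp3 (ι i₀) (iota_sq' hi ι) _ _ (not_lt_prod _ hj' _) h3)
  · intro h hs
    obtain ⟨hc1, hm, hloc⟩ := hs
    obtain ⟨v₀, g, x, q, hu, hk1, hq, hgen⟩ := gen_ex hD hc1 hm
      (fun p _ ι hp3 hpj τ σ hcc hτ => by
        obtain ⟨R, hR⟩ := hloc p ι
        exact (hr2 h p ι hp3 hpj R hR τ σ hcc hτ).2)
    obtain ⟨ι₃⟩ := exists_emb3
    obtain ⟨R, hR⟩ := hloc 3 ι₃
    obtain ⟨l0, l1⟩ := hLOC k b hk hb hkb i₀ hi (pD π e) (prod_form hD _) u a hTw h v₀ q g hu hk1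
      inferInstance ι₃ R hR
    have t3 : (3 : ZMod 3) = 0 := by decide
    obtain ⟨g', t, ht, ht1, ht2⟩ : ∃ (g' : ZMod 3) (t : ℕ), (v₀ = w ^ t ∨ v₀ = -w ^ t) ∧
        (t : ZMod 3) = g' * b ∧ (g : ZMod 3) = g' * (2 * k) := by
      interval_cases k
      · obtain ⟨c, hc2⟩ := unit_form hu
        have hb0 : (b : ZMod 3) ≠ 0 := by
          rcases hbk with h | h
          · exact h
          · exact absurd Nat.cast_zero h
        have hbb : (b : ZMod 3) * b = 1 :=
          (by decide : ∀ z : ZMod 3, z ≠ 0 → z * z = 1) _ hb0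
        have hg0 : (g : ZMod 3) = 0 := (ZMod.natCast_eq_zero_iff _ _).2 (l0 rfl)
        refine ⟨c * b, c.val, hc2, ?_, ?_⟩
        · rw [ZMod.natCast_zmod_val]
          linear_combination -c * hbb
        · rw [hg0, Nat.cast_zero, mul_zero, mul_zero]
      · refine ⟨2 * g, 2 * b * g, l1 rfl, ?_, ?_⟩
        · push_cast
          ring
        · push_cast
          linear_combination -(g : ZMod 3) * t3
    have h5 := hgen t ht
    set v : J → ZMod 3 := fun j => e j * x j - g' with hv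
    have e5 : vec (t : ZMod 3) (g : ZMod 3) (fun j => (x j : ZMod 3)) =
        fun k' => g' * vec (b : ZMod 3) (2 * (k : ZMod 3)) e k' +
          vec 0 0 (fun i => e i * v i) k' := by
      funext k'
      rcases k' with _ | _ | j
      · show (t : ZMod 3) = g' * (b : ZMod 3) + 0
        rw [ht1, add_zero]
      · show (g : ZMod 3) = g' * (2 * (k : ZMod 3)) + 0
        rw [← ht2, add_zero]
      · show (x j : ZMod 3) = g' * e j + e j * (e j * x j - g')
        have h4 := esq hD j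
        linear_combination -(x j : ZMod 3) * h4
    rw [e5] at h5
    refine ⟨g', v, fun j => ?_, h5⟩
    have h6 := kcG_add hD h5 (kcG_mul hD (-g') hb2)
    have e6 : (fun k' => g' * vec (b : ZMod 3) (2 * (k : ZMod 3)) e k' +
        vec 0 0 (fun i => e i * v i) k' + -g' * vec (b : ZMod 3) (2 * (k : ZMod 3)) e k') =
        vec 0 0 (fun i => e i * v i) := by
      funext k'
      ring
    rw [e6] at h6
    have h7 := keq hD j rfl hb2 h6 (fun p _ ι hl => by
      obtain ⟨R, hR⟩ := hloc p ι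
      obtain ⟨ε, hε⟩ := hr1 h j p ι hl R hR
      refine ⟨ε + g', fun τ σ hcc => ?_⟩
      rw [hε τ σ hcc]
      ring)
    have h8 := keq_sum hD j 0 0 b (2 * k) v h7
    have h9 := cs_lam_two (π j) (hD.pq j)
    obtain ⟨s1, -, s3⟩ := hSUP.1 (π j) (hD.pq j)
    rw [s1] at h8
    rw [s3] at h9
    unfold lf
    linear_combination h8 + (k : ZMod 3) * v j * h9

end Pool.Agent.E8helper96.CTM
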