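import Pool.Agent.E8helper86.CTL3.SelA
import Pool.Agent.Y715.T.RecC
import Pool.Agent.Y696.XL.Sel

/-!
# Project CTM: the Selmer characters of the cubic twists by `c D`, general part

The Kummer generators are the products of the powers of `w`, `lam` and of the primes.
-/

set_option autoImplicit false
set_option linter.unusedSectionVars false
set_option linter.unusedVariables false

open scoped Classical

namespace Pool.Agent.E8helper96.CTM

open Pool.Agent.Y692.QS (Ei w nr isUnit_iff)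
open Pool.Agent.Y715.T.Gi Pool.Agent.Y715.T.Nr Pool.Agent.Y715.T.Df
open Pool.Agent.Y715.T.Rec (cs)
open Pool.Agent.Y715.T.RecG
open Pool.Agent.Y715.T.RecC (unit_form)
open Pool.Agent.Y715.T.Sel (fac kc_mul kc_one kc_congr kc_pow kc_cube kc_uniq kc_cancel kc_unit
  kc_exp ex_root root_ne iota_sq iota_ev odd_of not_dvd_of_unr resid_kc exists_emb3)
open Pool.Agent.Y703.CT
open Pool.Agent.Y48.CT.SEL (not_lam not_assoc_lam p0 pr0 esq prod_form support)
open Pool.Agent.E8helper23.CT3.SEL (rh rh_prime rh0 rh_nd rp0 not_dvd_prod' cf_prod' prod_opt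
  cs_three)
open Pool.Agent.E8helper41.CTK3 (cube_of_triv)
open Pool.Agent.Y155.CT (T3 jj_T3 pm_T3 jh jh_apply jj_add nsmul_tt a_mul a_cont)
open Pool.Agent.Y363.CT.SELC (exists_tw)
open Pool.Agent.XL6 (SelH)

variable {J : Type} [Fintype J] {π : J → Ei} {e : J → ZMod 3}
variable {i₀ : QB} {hi : i₀ ^ 2 + i₀ + 1 = 0}

/-- `w`, `lam` and the primes -/
noncomputable def r2 (π : J → Ei) : Option (Option J) → Ei
  | none => w
  | some k => rh π k

/-- the Kummer generators -/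
noncomputable def G (π : J → Ei) (Z : Option (Option J) → ZMod 3) : Ei := ∏ k, r2 π k ^ (Z k).val

/-- the exponents: `s` of `w`, `g` of `lam`, and `v` of the primes -/
def vec (s g : ZMod 3) (v : J → ZMod 3) : Option (Option J) → ZMod 3
  | none => s
  | some none => g
  | some (some j) => v j

lemma vec_surj (Z : Option (Option J) → ZMod 3) :
    Z = vec (Z none) (Z (some none)) (fun j => Z (some (some j))) := by
  funext k
  rcases k with _ | _ | k <;> rfl

lemma w_unit : IsUnit w := isUnit_iff.2 (by decide)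

lemma w0 : w ≠ 0 := by decide

lemma r20 (hD : Dt π e) (k : Option (Option J)) : r2 π k ≠ 0 := by
  cases k with
  | none => exact w0
  | some k => exact rh0 hD k

lemma q0 (hD : Dt π e) (x : Option (Option J) → ℕ) : ∏ k, r2 π k ^ x k ≠ 0 :=
  Finset.prod_ne_zero_iff.2 fun k _ => pow_ne_zero _ (r20 hD k)

lemma G0 (hD : Dt π e) (Z : Option (Option J) → ZMod 3) : G π Z ≠ 0 := q0 hD _

lemma prod2 (x : Option (Option J) → ℕ) :
    ∏ k, r2 π k ^ x k = w ^ x none * (lam ^ x (some none) * ∏ j, π j ^ x (some (some j))) := by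
  rw [Fintype.prod_option, Fintype.prod_option]
  rfl

lemma G_vec (s g : ZMod 3) (v : J → ZMod 3) :
    G π (vec s g v) = w ^ s.val * (lam ^ g.val * ∏ j, π j ^ (v j).val) := prod2 _

lemma kcG_of (hD : Dt π e) {x : Option (Option J) → ℕ} {Z : Option (Option J) → ZMod 3}
    {h : GK i₀ → ZMod 3} (hxZ : ∀ k, (x k : ZMod 3) = Z k) (h1 : Kc hi (∏ k, r2 π k ^ x k) h) :
    Kc hi (G π Z) h :=
  kc_exp (r20 hD) (fun k => by rw [ZMod.natCast_zmod_val]; exact hxZ k) h1

lemma kcG_add (hD : Dt π e) {Z Z' : Option (Option J) → ZMod 3} {h h' : GK i₀ → ZMod 3}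
    (h1 : Kc hi (G π Z) h) (h2 : Kc hi (G π Z') h') :
    Kc hi (G π (fun k => Z k + Z' k)) (fun σ => h σ + h' σ) := by
  have h3 := kc_mul (G0 hD Z) (G0 hD Z') h1 h2
  have e1 : G π Z * G π Z' = ∏ k, r2 π k ^ ((Z k).val + (Z' k).val) := by
    unfold G
    rw [← Finset.prod_mul_distrib]
    exact Finset.prod_congr rfl fun k _ => (pow_add _ _ _).symm
  rw [e1] at h3
  refine kcG_of hD (fun k => ?_) h3
  push_cast
  rw [ZMod.natCast_zmod_val, ZMod.natCast_zmod_val]

lemma kcG_mul (hD : Dt π e) (c : ZMod 3) {Z : Option (Option J) → ZMod 3} {h : GK i₀ → ZMod 3}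
    (h1 : Kc hi (G π Z) h) : Kc hi (G π (fun k => c * Z k)) (fun σ => c * h σ) := by
  have h3 := kc_pow (G0 hD Z) h1 c.val
  have e1 : G π Z ^ c.val = ∏ k, r2 π k ^ ((Z k).val * c.val) := by
    unfold G
    rw [← Finset.prod_pow]
    exact Finset.prod_congr rfl fun k _ => (pow_mul _ _ _).symm
  rw [e1] at h3
  refine kc_congr (kcG_of hD (fun k => ?_) h3) (fun σ => by rw [ZMod.natCast_zmod_val])
  push_cast
  rw [ZMod.natCast_zmod_val, ZMod.natCast_zmod_val, mul_comm]

/-- the generators are free of cubes -/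
lemma cf_G (hD : Dt π e) (Z : Option (Option J) → ZMod 3) : CF (G π Z) := by
  have h1 := cf_prod' hD (fun k => Z (some k))
  have e1 : G π Z = w ^ (Z none).val * ∏ k, rh π k ^ (Z (some k)).val := by
    unfold G
    rw [Fintype.prod_option]
    rfl
  refine ⟨G0 hD Z, fun d hd => h1.2 d ?_⟩
  rw [e1] at hd
  exact (IsUnit.dvd_mul_left (w_unit.pow _)).1 hd

/-- the primes do not divide the other factors -/
lemma nd2 (hD : Dt π e) (l : Option J) (x : Option (Option J) → ℕ) :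
    ¬ rh π l ∣ ∏ k ∈ Finset.univ.erase (some l), r2 π k ^ x k := by
  have hp := rh_prime hD l
  rw [hp.dvd_finsetProd_iff]
  rintro ⟨i, hij, hd⟩
  have hd' := hp.dvd_of_dvd_pow hd
  cases i with
  | none => exact hp.not_isUnit (isUnit_of_dvd_unit hd' w_unit)
  | some k =>
    exact rh_nd hD k l (fun h => Finset.ne_of_mem_erase hij (congrArg some h)) hd'

/-- a power of `w` that is a cube in the field -/
lemma w_cube {s : ZMod 3} {y z : Ei} (hy : y ≠ 0) (h : w ^ s.val * y ^ 3 = z ^ 3) : s = 0 := by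
  have h1 : y ^ 3 ∣ z ^ 3 := ⟨w ^ s.val, by rw [← h, mul_comm]⟩
  have h2 : y ∣ z := (IsIntegrallyClosed.pow_dvd_pow_iff three_ne_zero).1 h1
  obtain ⟨t, rfl⟩ := h2
  have h3 : w ^ s.val = t ^ 3 := by
    have h4 : y ^ 3 * w ^ s.val = y ^ 3 * t ^ 3 := by rw [← mul_pow, ← h, mul_comm]
    exact mul_left_cancel₀ (pow_ne_zero 3 hy) h4
  have h5 : IsUnit t := by
    have h6 : IsUnit (t ^ 3) := h3 ▸ w_unit.pow _
    exact (isUnit_pow_iff three_ne_zero).1 h6
  obtain ⟨c, hc⟩ := unit_form h5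
  have k1 : ∀ s c : ZMod 3, w ^ s.val = (w ^ c.val) ^ 3 → s = 0 := by decide
  have k2 : ∀ s c : ZMod 3, w ^ s.val = (-w ^ c.val) ^ 3 → s = 0 := by decide
  rcases hc with hc | hc
  · exact k1 s c (by rw [h3, hc])
  · exact k2 s c (by rw [h3, hc])

/-- the exponents are determined by the character -/
theorem G_zero (hD : Dt π e) {Z : Option (Option J) → ZMod 3} {h : GK i₀ → ZMod 3}
    (h1 : Kc hi (G π Z) h) (h0 : ∀ σ, h σ = 0) (k : Option (Option J)) : Z k = 0 := by
  obtain ⟨y, z, hy, hyz⟩ := cube_of_triv h1 h0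
  have hz : z ≠ 0 := by
    rintro rfl
    rw [zero_pow three_ne_zero] at hyz
    exact mul_ne_zero (G0 hD Z) (pow_ne_zero 3 hy) hyz
  have hsome : ∀ l : Option J, Z (some l) = 0 := by
    intro l
    have hp := rh_prime hD l
    have hf : ∀ t : Ei, t ≠ 0 → FiniteMultiplicity (rh π l) t := fun t ht =>
      FiniteMultiplicity.of_prime_left hp ht
    have hnd := nd2 hD l (fun k => (Z k).val)
    have hr0 : ∏ i ∈ Finset.univ.erase (some l), r2 π i ^ (Z i).val ≠ 0 :=
      Finset.prod_ne_zero_iff.2 fun i _ => pow_ne_zero _ (r20 hD i)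
    have hk0 : rh π l ^ (Z (some l)).val ≠ 0 := pow_ne_zero _ (rh0 hD l)
    have hy3 : y ^ 3 ≠ 0 := pow_ne_zero 3 hy
    have h2 := congrArg (multiplicity (rh π l)) hyz
    have e1 : G π Z = rh π l ^ (Z (some l)).val *
        ∏ i ∈ Finset.univ.erase (some l), r2 π i ^ (Z i).val := by
      unfold G
      rw [← Finset.mul_prod_erase Finset.univ _ (Finset.mem_univ (some l))]
      rfl
    rw [e1, multiplicity_mul hp (hf _ (mul_ne_zero (mul_ne_zero hk0 hr0) hy3)),
      multiplicity_mul hp (hf _ (mul_ne_zero hk0 hr0)),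
      multiplicity_pow_self_of_prime hp, multiplicity_eq_zero.2 hnd,
      (hf y hy).multiplicity_pow hp, (hf z hz).multiplicity_pow hp] at h2
    have h3 : (Z (some l)).val < 3 := ZMod.val_lt _
    have h4 : (Z (some l)).val = 0 := by omega
    exact (ZMod.val_eq_zero _).1 h4
  cases k with
  | some l => exact hsome l
  | none =>
    have e1 : G π Z = w ^ (Z none).val := by
      unfold G
      rw [Fintype.prod_option]
      have e2 : ∏ i : Option J, r2 π (some i) ^ (Z (some i)).val = 1 :=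
        Finset.prod_eq_one fun i _ => by rw [hsome i, ZMod.val_zero, pow_zero]
      rw [e2, mul_one]
      rfl
    rw [e1] at hyz
    exact w_cube hy hyz

theorem G_inj (hD : Dt π e) {Z Z' : Option (Option J) → ZMod 3} {h : GK i₀ → ZMod 3}
    (h1 : Kc hi (G π Z) h) (h2 : Kc hi (G π Z') h) : Z = Z' := by
  funext k
  have h3 := G_zero hD (kcG_add hD h1 (kcG_mul hD (-1) h2)) (fun σ => by ring) k
  linear_combination h3

lemma G_uniq (hD : Dt π e) {Z : Option (Option J) → ZMod 3} {h h' : GK i₀ → ZMod 3}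
    (h1 : Kc hi (G π Z) h) (h2 : Kc hi (G π Z) h') : h = h' :=
  funext fun σ => kc_uniq (G0 hD Z) h1 h2 σ

/-- all the characters exist -/
lemma G_ex (hi : i₀ ^ 2 + i₀ + 1 = 0) (hD : Dt π e) (Z : Option (Option J) → ZMod 3) :
    ∃ h : GK i₀ → ZMod 3, Kc hi (G π Z) h ∧ IsLocallyConstant h ∧
      ∀ σ τ, h (σ * τ) = h σ + h τ := by
  obtain ⟨β, a', hTw'⟩ := exists_tw (hi := hi) (G π Z)
  refine ⟨fun σ => -a' σ,
    kc_of hi (root_ne (hi := hi) (G0 hD Z) hTw'.cube) hTw'.cube hTw'.act,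
    (a_cont (G0 hD Z) hTw').comp (fun c : ZMod 3 => -c), fun σ τ => ?_⟩
  show -a' (σ * τ) = -a' σ + -a' τ
  rw [a_mul (G0 hD Z) hTw' σ τ]
  ring

/-- the Selmer group is closed under the addition of the multiples of the class of the curve -/
lemma selH_add {D : Ei} (hne : D ≠ 0) {u : QB} {a : GK i₀ → ZMod 3} (hTw : Tw hi D u a)
    {h : GK i₀ → ZMod 3} (hs : h ∈ SelH hi a) (c : ZMod 3) :
    (fun σ => h σ + c * -a σ) ∈ SelH hi a := by
  obtain ⟨hc, hm, hloc⟩ := hs
  refine ⟨hc.add ((a_cont hne hTw).comp (fun x : ZMod 3 => c * -x)), fun σ τ => ?_,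
    fun p _ ι => ?_⟩
  · show h (σ * τ) + c * -a (σ * τ) = h σ + c * -a σ + (h τ + c * -a τ)
    rw [hm σ τ, a_mul hne hTw σ τ]
    ring
  · obtain ⟨R, hR⟩ := hloc p ι
    exact ⟨_, Pool.Agent.E8helper86.CTL3.st1_add hR c⟩

/-- the character of `c D` -/
lemma kc_cur (hD : Dt π e) {D u₀ : Ei} (hu : u₀ = 1 ∨ u₀ = -1)
    {A : Option (Option J) → ZMod 3} (hA : D = u₀ * G π A) {u : QB} {a : GK i₀ → ZMod 3}
    (hTw : Tw hi D u a) : Kc hi (G π A) (fun σ => -a σ) := by
  have h30 : D ≠ 0 := by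
    rw [hA]
    refine mul_ne_zero ?_ (G0 hD A)
    rcases hu with rfl | rfl
    · exact one_ne_zero
    · exact neg_ne_zero.2 one_ne_zero
  refine kc_unit (G0 hD A) hu ?_
  rw [← hA]
  exact kc_of hi (root_ne (hi := hi) (z := D) h30 hTw.cube) hTw.cube hTw.act

/-- the characters unramified outside `3` and the primes -/
lemma gen_ex (hD : Dt π e) {h : GK i₀ → ZMod 3} (hc : IsLocallyConstant h)
    (hm : ∀ σ τ, h (σ * τ) = h σ + h τ)
    (hun : ∀ (p : ℕ) [Fact p.Prime] (ι : QB →ₐ[ℚ] PadicAlgCl p), p ≠ 3 →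
      (∀ j, ¬ ‖ι (ev i₀ hi (π j))‖ < 1) →
      ∀ (τ : Au p) (σ : GK i₀), Cmp ι τ σ → Inert τ → h σ = 0) :
    ∃ (v₀ : Ei) (g : ℕ) (x : J → ℕ) (q : Ei), IsUnit v₀ ∧
      Kc hi (v₀ * lam ^ g * (1 + 3 * q)) h ∧ ∏ j, π j ^ x j = 1 + 3 * q ∧
      ∀ t : ℕ, (v₀ = w ^ t ∨ v₀ = -w ^ t) → Kc hi (G π (vec t g (fun j => x j))) h := by
  obtain ⟨z, hz, hzh⟩ := kum hi h hc hm
  obtain ⟨v₀, g, x, hu, ez⟩ := fac (π := π) z hz.1 (support hD hz hzh hun)
  obtain ⟨q, hq⟩ := prod_form hD x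
  have hq' : ∏ j, π j ^ x j = 1 + 3 * q := by rw [← hq]; ring
  refine ⟨v₀, g, x, q, hu, by rw [← hq', ← ez]; exact hzh, hq', fun t ht => ?_⟩
  rw [ez] at hzh
  set X : Option (Option J) → ℕ := fun k => k.elim t (fun l => l.elim g x) with hX
  have h1 : Kc hi (∏ k, r2 π k ^ X k) h := by
    obtain ⟨u₀, hu₀, e0⟩ : ∃ u₀ : Ei, (u₀ = 1 ∨ u₀ = -1) ∧ v₀ = u₀ * w ^ t := by
      rcases ht with h2 | h2
      · exact ⟨1, Or.inl rfl, by rw [h2, one_mul]⟩
      · exact ⟨-1, Or.inr rfl, by rw [h2, neg_one_mul]⟩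
    refine kc_unit (q0 hD X) hu₀ ?_
    rw [prod2]
    have e1 : u₀ * (w ^ X none * (lam ^ X (some none) * ∏ j, π j ^ X (some (some j)))) =
        v₀ * lam ^ g * ∏ j, π j ^ x j := by
      show u₀ * (w ^ t * (lam ^ g * ∏ j, π j ^ x j)) = _
      rw [e0]
      ring
    rw [e1]
    exact hzh
  refine kcG_of hD (fun k => ?_) h1
  rcases k with _ | _ | k <;> rfl

/-- **the equation at `π j`** -/
theorem keq (hD : Dt π e) {A Z : Option (Option J) → ZMod 3} {a h : GK i₀ → ZMod 3} (j : J)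
    (hA : A (some (some j)) = e j)
    (hb : Kc hi (G π A) (fun σ => -a σ)) (hz : Kc hi (G π Z) h)
    (hloc : ∀ (p : ℕ) [Fact p.Prime] (ι : QB →ₐ[ℚ] PadicAlgCl p), ‖ι (ev i₀ hi (π j))‖ < 1 →
      ∃ ε : ZMod 3, ∀ (τ : Au p) (σ : GK i₀), Cmp ι τ σ → h σ = ε * a σ) :
    ∑ k, (Z k - e j * Z (some (some j)) * A k) * cs (π j) (r2 π k) = 0 := by
  obtain ⟨p, hp, ι, hl⟩ := exists_emb hi (hD.pq j).prime
  have hp3 := odd_of hi ι (hD.pq j).prime hl (not_assoc_lam (hD.pq j))
  obtain ⟨ε, hε⟩ := hloc p ι hl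
  have hy2 := kcG_add hD hz (kcG_mul hD ε hb)
  have hy1 : ∀ (τ : Au p) (σ : GK i₀), Cmp ι τ σ → h σ + ε * -a σ = 0 := by
    intro τ σ hcc
    rw [hε τ σ hcc]
    ring
  set Y : Option (Option J) → ZMod 3 := fun k => Z k + ε * A k with hY
  have hl' : ‖ι (ev i₀ hi (rh π (some j)))‖ < 1 := hl
  have hyj : Y (some (some j)) = 0 := by
    have h1 := not_dvd_of_unr (cf_G hD Y) hy2 hp3 ι (hD.pq j).prime hl
      (fun τ σ hcc _ => hy1 τ σ hcc)
    by_contra hne
    apply h1
    refine dvd_trans (dvd_pow_self (π j) ?_) (Finset.dvd_prod_of_mem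
      (fun i => r2 π i ^ (Y i).val) (Finset.mem_univ (some (some j))))
    rwa [Ne, ZMod.val_eq_zero]
  have hεv : ε = -(e j * Z (some (some j))) := by
    have h1 : Z (some (some j)) + ε * A (some (some j)) = 0 := hyj
    rw [hA] at h1
    have h2 := esq hD j
    linear_combination e j * h1 - ε * h2
  have hYk : ∀ k, Y k = Z k - e j * Z (some (some j)) * A k := by
    intro k
    rw [hY]
    simp only [hεv]
    ring
  have e2 : G π Y = ∏ i ∈ Finset.univ.erase (some (some j)), r2 π i ^ (Y i).val := by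
    unfold G
    rw [← Finset.mul_prod_erase Finset.univ (fun i => r2 π i ^ (Y i).val)
      (Finset.mem_univ (some (some j))), hyj, ZMod.val_zero, pow_zero, one_mul]
  have hcube := resid_kc hy2 hp3 ι (hD.pq j).prime hl hy1
  have h9 := (hD.pq j).norm
  have hpj := (hD.pq j).prime
  have hnd1 : ∀ i ∈ Finset.univ.erase (some (some j)), ¬ π j ∣ r2 π i := by
    intro i hij hd
    cases i with
    | none => exact hpj.not_isUnit (isUnit_of_dvd_unit hd w_unit)
    | some k =>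
      exact rh_nd hD k (some j) (fun h => Finset.ne_of_mem_erase hij (congrArg some h)) hd
  have hndm : ¬ π j ∣ G π Y := by
    rw [e2]
    exact nd2 hD (some j) _
  have hcs := (cs_zero_iff hpj h9 hndm).2 hcube
  rw [e2, cs_prod hpj h9 _ _ (fun i hij h1 => hnd1 i hij (hpj.dvd_of_dvd_pow h1))] at hcs
  rw [← Finset.add_sum_erase Finset.univ _ (Finset.mem_univ (some (some j))), ← hYk, hyj,
    zero_mul, zero_add, ← hcs]
  refine Finset.sum_congr rfl fun i hij => ?_
  rw [cs_pow hpj h9 (hnd1 i hij), ZMod.natCast_zmod_val, hYk i]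

/-- the sum in `keq` for explicit vectors -/
lemma keq_sum (hD : Dt π e) (j : J) (s g b c : ZMod 3) (v : J → ZMod 3)
    (h : ∑ k, (vec s g (fun i => e i * v i) k -
      e j * vec s g (fun i => e i * v i) (some (some j)) * vec b c e k) * cs (π j) (r2 π k) = 0) :
    s * cs (π j) w + g * cs (π j) lam + ∑ i, e i * cs (π j) (π i) * (v i - v j) =
      (b * cs (π j) w + c * cs (π j) lam) * v j := by
  rw [Fintype.sum_option, Fintype.sum_option] at h
  have h2 := esq hD j
  have h3 : e j * vec s g (fun i => e i * v i) (some (some j)) = v j := by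
    show e j * (e j * v j) = v j
    linear_combination v j * h2
  rw [h3] at h
  have h4 : ∑ i, (vec s g (fun i => e i * v i) (some (some i)) -
      v j * vec b c e (some (some i))) * cs (π j) (r2 π (some (some i))) =
      ∑ i, e i * cs (π j) (π i) * (v i - v j) := by
    refine Finset.sum_congr rfl fun i _ => ?_
    show (e i * v i - v j * e i) * cs (π j) (π i) = _
    ring
  rw [h4] at h
  have h5 : (s - v j * b) * cs (π j) w + ((g - v j * c) * cs (π j) lam +
      ∑ i, e i * cs (π j) (π i) * (v i - v j)) = 0 := h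
  linear_combination h5

/-- counting -/
theorem card_of (hD : Dt π e) {a : GK i₀ → ZMod 3} {A : Option (Option J) → ZMod 3}
    (hb : Kc hi (G π A) (fun σ => -a σ)) {D : Ei} (hne : D ≠ 0) {u : QB} (hTw : Tw hi D u a)
    {ι : Type} (P : ι → Prop) (B : ι → Option (Option J) → ZMod 3)
    (hinj : ∀ (g g' : ZMod 3) (x y : ι), P x → P y →
      (∀ k, g * A k + B x k = g' * A k + B y k) → g = g' ∧ x = y)
    (hmem : ∀ x, P x → ∀ h : GK i₀ → ZMod 3, Kc hi (G π (B x)) h →
      ∀ (p : ℕ) [Fact p.Prime] (ι : QB →ₐ[ℚ] PadicAlgCl p), ∃ R, St1 hi ι a h R)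
    (hsurj : ∀ h ∈ SelH hi a, ∃ (g : ZMod 3) (x : ι), P x ∧
      Kc hi (G π (fun k => g * A k + B x k)) h) :
    (SelH hi a).ncard = 3 * Nat.card {x : ι // P x} := by
  have h2 : ∀ x : ZMod 3 × {x : ι // P x}, ∃ h : SelH hi a,
      Kc hi (G π (fun k => x.1 * A k + B x.2.1 k)) h.1 := by
    rintro ⟨g, x, hx⟩
    obtain ⟨h, hk, hc, hm⟩ := G_ex hi hD (B x)
    have h3 : h ∈ SelH hi a := ⟨hc, hm, fun p _ ι => hmem x hx h hk p ι⟩
    refine ⟨⟨_, selH_add hne hTw h3 g⟩, ?_⟩
    have h4 := kcG_add hD hk (kcG_mul hD g hb)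
    have e1 : (fun k => B x k + g * A k) = fun k => g * A k + B x k := by
      funext k
      ring
    rw [e1] at h4
    exact h4
  choose f hf using h2
  have hbij : Function.Bijective f := by
    constructor
    · intro x y hxy
      have h5 := G_inj hD (hf x) (by rw [hxy]; exact hf y)
      obtain ⟨h3, h4⟩ := hinj x.1 y.1 x.2.1 y.2.1 x.2.2 y.2.2 (fun k => congrFun h5 k)
      exact Prod.ext h3 (Subtype.ext h4)
    · rintro ⟨h, hs⟩
      obtain ⟨g, x, hx, hk⟩ := hsurj h hs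
      refine ⟨(g, ⟨x, hx⟩), ?_⟩
      have h5 := hf (g, ⟨x, hx⟩)
      exact Subtype.ext (G_uniq hD h5 hk)
  rw [← Nat.card_coe_set_eq, ← Nat.card_congr (Equiv.ofBijective f hbij), Nat.card_prod,
    Nat.card_zmod]

end Pool.Agent.E8helper96.CTM
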